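import Pool.Agent.H39R3.PB.Defs

/-! Basic facts (port of the lemmas of `Pool.Agent.H476R2.Pal.Defs`, `T3`, `T5`). -/

set_option autoImplicit false

namespace Pool.Agent.H39R3.PB

open Finset Filter Topology Pool.Agent.Helper112

variable {b : ℕ}

lemma ph_nonneg (b : ℕ) (β : ℝ) : 0 ≤ ph b β := by unfold ph; positivity

lemma ph_le_one (b : ℕ) (β : ℝ) : ph b β ≤ 1 := by
  unfold ph
  rcases Nat.eq_zero_or_pos b with h | h
  · subst h; simp
  have hb : (0 : ℝ) < b := by exact_mod_cast h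
  rw [div_le_one hb]
  calc ‖∑ m ∈ range b, ee (m * β)‖ ≤ ∑ m ∈ range b, ‖ee (m * β)‖ := norm_sum_le _ _
    _ = b := by simp [ls_norm_ee]

lemma ph_add_int (β : ℝ) (k : ℤ) : ph b (β + k) = ph b β := by
  unfold ph
  congr 2
  apply sum_congr rfl
  intro m _
  have : ((m : ℝ) * (β + k)) = m * β + ((m * k : ℤ) : ℝ) := by push_cast; ring
  rw [this, ls_ee_add, ls_ee_int, mul_one]

lemma ph_add_nat (β : ℝ) (k : ℕ) : ph b (β + k) = ph b β := by
  have := ph_add_int (b := b) β k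
  simpa using this

lemma Ps_nonneg (b L A J : ℕ) (α : ℝ) : 0 ≤ Ps b L A J α := prod_nonneg fun _ _ => ph_nonneg _ _

lemma Ps_le_one (b L A J : ℕ) (α : ℝ) : Ps b L A J α ≤ 1 :=
  prod_le_one (fun _ _ => ph_nonneg _ _) (fun _ _ => ph_le_one _ _)

lemma Ps_add (L A J K : ℕ) (α : ℝ) : Ps b L A (J + K) α = Ps b L A J α * Ps b L (A + J) K α := by
  unfold Ps
  rw [prod_range_add]
  simp only [add_assoc]

lemma Ps_zero (L A : ℕ) (α : ℝ) : Ps b L A 0 α = 1 := by simp [Ps]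

lemma Ps_add_int (L A J : ℕ) (α : ℝ) (k : ℤ) : Ps b L A J (α + k) = Ps b L A J α := by
  unfold Ps
  apply prod_congr rfl
  intro j _
  have : (fr b L (A + j) : ℝ) * (α + k) = fr b L (A + j) * α + ((fr b L (A + j) * k : ℤ) : ℝ) := by
    push_cast; ring
  rw [this, ph_add_int]

/-- the blocks as a sub-product of the whole product -/
lemma Ps_le_block (L A J M : ℕ) (h : A + J ≤ M) (α : ℝ) : Ps b L 0 M α ≤ Ps b L A J α := by
  obtain ⟨K, rfl⟩ := Nat.exists_eq_add_of_le h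
  rw [Ps_add, Ps_add, Nat.zero_add, Nat.zero_add]
  have h1 := Ps_le_one b L 0 A α
  have h2 := Ps_nonneg b L 0 A α
  have h3 := Ps_le_one b L (A + J) K α
  have h4 := Ps_nonneg b L (A + J) K α
  have h5 := Ps_nonneg b L A J α
  calc Ps b L 0 A α * Ps b L A J α * Ps b L (A + J) K α ≤ 1 * Ps b L A J α * 1 := by
        gcongr
    _ = _ := by ring

/-- rescaling of frequencies -/
lemma fr_scale {L M c : ℕ} (hM : M ≤ L) (hc : c ≤ M) : fr b L c = b ^ (L - M) * fr b M c := by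
  unfold fr
  split_ifs with h
  · rw [← pow_add]; congr 1; omega
  · rw [mul_add, ← pow_add, ← pow_add]
    congr 2 <;> omega

lemma Ps_scale {L M A J : ℕ} (hM : M ≤ L) (hA : A + J ≤ M + 1) (α : ℝ) :
    Ps b L A J α = Ps b M A J ((b : ℝ) ^ (L - M) * α) := by
  unfold Ps
  apply prod_congr rfl
  intro j hj
  rw [mem_range] at hj
  rw [fr_scale hM (show A + j ≤ M by omega)]
  congr 1
  push_cast
  ring

/-- an injective self-map of a finite set does not change sums -/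
lemma sum_perm_image {s : Finset ℕ} (g : ℕ → ℕ) (hmaps : ∀ a ∈ s, g a ∈ s)
    (hinj : ∀ a ∈ s, ∀ b ∈ s, g a = g b → a = b) (F : ℕ → ℝ) :
    ∑ a ∈ s, F (g a) = ∑ a ∈ s, F a := by
  have himg : s.image g = s :=
    eq_of_subset_of_card_le (image_subset_iff.2 hmaps)
      (card_image_of_injOn (fun a ha b hb h => hinj a ha b hb h)).ge
  conv_rhs => rw [← himg]
  rw [sum_image (fun a ha b hb h => hinj a ha b hb h)]

lemma dilate_step {q : ℕ} (h0 : 0 < q) (k a : ℕ) (f : ℝ → ℝ) (hf : ∀ (x : ℝ) (n : ℤ), f (x + n) = f x) :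
    f ((b : ℝ) ^ k * ((a : ℝ) / q)) = f (((((b ^ k * a) % q : ℕ)) : ℝ) / q) := by
  have hq0 : (q : ℝ) ≠ 0 := by exact_mod_cast h0.ne'
  have h1 := Nat.div_add_mod (b ^ k * a) q
  generalize hr : (b ^ k * a) % q = r at *
  generalize hd : (b ^ k * a) / q = d at *
  have h3 : ((q : ℝ) * d + r) = (b : ℝ) ^ k * a := by exact_mod_cast h1
  have h2 : (b : ℝ) ^ k * ((a : ℝ) / q) = (r : ℝ) / q + ((d : ℤ) : ℝ) := by
    rw [← mul_div_assoc, ← h3]
    field_simp
    push_cast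
    ring
  rw [h2, hf]

lemma coprime_b {q : ℕ} (hq : q.Coprime (2 * b)) : q.Coprime b :=
  Nat.Coprime.coprime_dvd_right (Dvd.intro_left 2 rfl) hq

/-- multiplication by `b ^ k` permutes the reduced residues -/
lemma dilate {q : ℕ} (hq : q.Coprime b) (k : ℕ) (f : ℝ → ℝ) (hf : ∀ (x : ℝ) (n : ℤ), f (x + n) = f x) :
    ∑ a ∈ (range q).filter (fun a => a.Coprime q), f ((b : ℝ) ^ k * ((a : ℝ) / q)) =
      ∑ a ∈ (range q).filter (fun a => a.Coprime q), f ((a : ℝ) / q) := by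
  rcases Nat.eq_zero_or_pos q with h0 | h0
  · subst h0; simp
  have hcop : (b ^ k).Coprime q := (hq.symm.pow_left k)
  rw [← sum_perm_image (s := (range q).filter (fun a => a.Coprime q)) (fun a => (b ^ k * a) % q) ?_ ?_
    (fun a => f ((a : ℝ) / q))]
  · exact sum_congr rfl fun a _ => dilate_step h0 k a f hf
  · intro a ha
    rw [mem_filter, mem_range] at ha ⊢
    refine ⟨Nat.mod_lt _ h0, ?_⟩
    have h1 : (b ^ k * a).Coprime q := Nat.Coprime.mul_left hcop ha.2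
    have h2 : Nat.gcd ((b ^ k * a) % q) q = Nat.gcd q (b ^ k * a) := (Nat.gcd_rec _ _).symm
    rw [Nat.Coprime, h2, Nat.gcd_comm]
    exact h1
  · intro a ha c hc hab
    rw [mem_filter, mem_range] at ha hc
    have h1 : b ^ k * a ≡ b ^ k * c [MOD q] := hab
    have h2 : a ≡ c [MOD q] := Nat.ModEq.cancel_left_of_coprime (by rw [Nat.gcd_comm]; exact hcop) h1
    rwa [Nat.ModEq, Nat.mod_eq_of_lt ha.1, Nat.mod_eq_of_lt hc.1] at h2

/-! ### sums over points -/

lemma pts_nonneg {Q : ℕ} {f : ℝ → ℝ} (hf : ∀ x, 0 ≤ f x) : 0 ≤ pts b Q f :=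
  sum_nonneg fun _ _ => sum_nonneg fun _ _ => hf _

lemma pts_mono {Q : ℕ} {f g : ℝ → ℝ} (h : ∀ x, f x ≤ g x) : pts b Q f ≤ pts b Q g :=
  sum_le_sum fun _ _ => sum_le_sum fun _ _ => h _

lemma pts_le_apts {Q : ℕ} {f : ℝ → ℝ} (hf : ∀ x, 0 ≤ f x) : pts b Q f ≤ apts b Q f :=
  sum_le_sum fun _ _ => sum_le_sum_of_subset_of_nonneg (filter_subset _ _) fun _ _ _ => hf _

lemma pts_add {Q : ℕ} (f g : ℝ → ℝ) : pts b Q (fun x => f x + g x) = pts b Q f + pts b Q g := by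
  unfold pts
  simp only [sum_add_distrib]

lemma pts_mul_left {Q : ℕ} (c : ℝ) (f : ℝ → ℝ) : pts b Q (fun x => c * f x) = c * pts b Q f := by
  unfold pts
  simp only [mul_sum]

lemma pts_sum {Q : ℕ} {ι : Type*} (s : Finset ι) (f : ι → ℝ → ℝ) :
    pts b Q (fun x => ∑ i ∈ s, f i x) = ∑ i ∈ s, pts b Q (f i) := by
  classical
  induction s using Finset.induction_on with
  | empty => simp [pts]
  | insert a s ha ih => simp only [sum_insert ha, pts_add, ih]

lemma pts_cs {Q : ℕ} (f g : ℝ → ℝ) :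
    (pts b Q (fun x => f x * g x)) ^ 2 ≤ pts b Q (fun x => f x ^ 2) * pts b Q (fun x => g x ^ 2) := by
  unfold pts
  rw [sum_sigma', sum_sigma', sum_sigma']
  exact sum_mul_sq_le_sq_mul_sq _ _ _

lemma Ps_blocks (L A J n : ℕ) (α : ℝ) : Ps b L A (n * J) α = ∏ i ∈ range n, Ps b L (A + i * J) J α := by
  induction n with
  | zero => simp [Ps_zero]
  | succ n ih => rw [Nat.succ_mul, Ps_add, ih, prod_range_succ]

end Pool.Agent.H39R3.PB
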