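import Mathlib
import Pool.Agent.Helper112.LS

/-!
# Palindromes in base `b`: definitions (port of `Pool.Agent.H476R2.Pal.Defs` from base 10)
-/

set_option autoImplicit false

namespace Pool.Agent.H39R3.PB

open Finset Filter Topology Pool.Agent.Helper112

/-- frequency of the digit at distance `c` from the middle -/
def fr (b L c : ℕ) : ℕ := if c = 0 then b ^ L else b ^ (L + c) + b ^ (L - c)

/-- normalised digit sum -/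
noncomputable def ph (b : ℕ) (β : ℝ) : ℝ := ‖∑ m ∈ range b, ee (m * β)‖ / b

/-- block product over the digit positions `A, …, A+J-1` -/
noncomputable def Ps (b L A J : ℕ) (α : ℝ) : ℝ := ∏ j ∈ range J, ph b (fr b L (A + j) * α)

/-- the palindrome `1 m_{L-1} … m_1 m_0 m_1 … m_{L-1} 1` with `2 L + 1` base-`b` digits (for `L ≥ 1`) -/
def pv (b L : ℕ) (m : Fin L → Fin b) : ℕ :=
  b ^ (2 * L) + 1 + ∑ c : Fin L, (m c : ℕ) * fr b L c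

/-- sum over the reduced fractions `a / q`, `Q ≤ q < 2 Q`, `q` coprime to `2 b` -/
noncomputable def pts (b Q : ℕ) (f : ℝ → ℝ) : ℝ :=
  ∑ q ∈ (Ico Q (2 * Q)).filter (fun q => q.Coprime (2 * b)),
    ∑ a ∈ (range q).filter (fun a => a.Coprime q), f ((a : ℝ) / q)

/-- sum over all fractions `a / q`, `Q ≤ q < 2 Q`, `q` coprime to `2 b` -/
noncomputable def apts (b Q : ℕ) (f : ℝ → ℝ) : ℝ :=
  ∑ q ∈ (Ico Q (2 * Q)).filter (fun q => q.Coprime (2 * b)), ∑ a ∈ range q, f ((a : ℝ) / q)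

/-- the reduced part at denominator `q` -/
noncomputable def U (b L q : ℕ) : ℝ :=
  ∑ a ∈ (range q).filter (fun a => a.Coprime q), Ps b L 0 L ((a : ℝ) / q)

/-- number of `m` with `pv b L m ≡ h (mod q)` -/
noncomputable def cnt (b L q h : ℕ) : ℝ :=
  ((univ : Finset (Fin L → Fin b)).filter (fun m => pv b L m ≡ h [MOD q])).card

/-- `∑_s w(s)² / b^(2b)`, where `w(s)` are the coefficients of `(1 + x + ... + x^(b-1))^b` -/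
noncomputable def PP (b : ℕ) : ℝ :=
  (∑ s ∈ range (b * b), ((((∑ i ∈ range b, (Polynomial.X : Polynomial ℕ) ^ i) ^ b).coeff s : ℕ) : ℝ) ^ 2) /
    (b : ℝ) ^ (2 * b)

/-! ### tasks -/

/-- T1 (port of `Pool.Agent.H535R2.Pal.T1`) -/
def TaskT1 : Prop := ∀ b : ℕ, 2 ≤ b → ∀ L K J Q : ℕ, K ≤ J → 1 ≤ J → J ≤ L → Q ≤ b ^ J → b ^ J ≤ b * Q →
    pts b Q (fun α => Ps b L 0 K α ^ 4 * Ps b L K (J - K) α ^ 2) ≤ 6 * (2 * b + 4) * Q * (3 / 4) ^ K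

/-- T2 (port of `Pool.Agent.H898R2.PalT2.T2`) -/
def TaskT2 : Prop := ∀ b : ℕ, 2 ≤ b → ∀ (L A J Q : ℕ) (T : ℝ), A + J ≤ L → Q ≤ b ^ J →
    (∀ n : ℕ, 1 ≤ n → n ≤ b ^ (2 * L + 1) → (n.divisors.card : ℝ) ≤ T) →
    apts b Q (fun α => Ps b L A J α ^ 2) ≤ 2 * Q + 2 * Q * T

/-- T4 (port of `Pool.Agent.H831R2.PalT4.T20`) -/
def TaskT4 : Prop := ∀ b : ℕ, 2 ≤ b → ∀ L A J Q : ℕ, 1 ≤ A → A + J ≤ L → 1 ≤ Q → Q ^ 2 ≤ b ^ J →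
    b ^ J ≤ b * Q ^ 2 →
    pts b Q (fun α => Ps b L A J α ^ (2 * b)) ≤ 6 * b * (b + 4) * ((b : ℝ) ^ 2 * PP b) ^ J

/-- the collision probability -/
def TaskPB : Prop := ∀ b : ℕ, 3 ≤ b → PP b ^ 2 * (b : ℝ) ^ 3 ≤ (26 / 25) ^ 2

/-- pointwise bound for one denominator -/
def PointB (b : ℕ) : Prop := ∃ κ : ℝ, 0 < κ ∧ κ < 1 ∧ ∀ q t a L : ℕ, 1 < q → q.Coprime (2 * b) →
    a.Coprime q → q < b ^ t → Ps b L 0 L ((a : ℝ) / q) ≤ (1 - κ) ^ ((L - 1) / (2 * t + 2))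

/-- T6 (port of `Pool.Agent.H287R2.PalT6.point`) -/
def TaskT6 : Prop := ∀ b : ℕ, 2 ≤ b → PointB b

/-- middle range -/
def MidB (b : ℕ) : Prop := ∃ (C θ : ℝ) (N : ℕ), 0 < C ∧ 0 < θ ∧ θ < 1 ∧ 1 ≤ N ∧ ∀ L J Q : ℕ, 1 + N * J ≤ L →
    1 ≤ Q → Q ^ 2 ≤ b ^ J → b ^ J ≤ b * Q ^ 2 → pts b Q (Ps b L 0 L) ≤ C * Q * θ ^ J

/-- large range -/
def BigB (b : ℕ) : Prop := ∃ C θ : ℝ, 0 < C ∧ 0 < θ ∧ θ < 1 ∧ ∀ (L k J Q : ℕ) (T : ℝ),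
    (∀ n : ℕ, 1 ≤ n → n ≤ b ^ (2 * L + 1) → (n.divisors.card : ℝ) ≤ T) →
    4 * k ≤ J → 1 ≤ J → 4 * k + 2 * J ≤ L → Q ≤ b ^ J → b ^ J ≤ b * Q →
    pts b Q (Ps b L 0 L) ≤ C * Q * T * θ ^ k

/-- the sum of the `U` -/
def USumB (b : ℕ) : Prop := ∀ (ε : ℝ), 0 < ε → ∀ (A : ℕ), ∀ᶠ L : ℕ in atTop,
    ∑ q ∈ (Icc 2 ⌊(b : ℝ) ^ ((1 / 2 - ε) * L)⌋₊).filter (fun q => q.Coprime (2 * b)),
      (q.divisors.card : ℝ) ^ 2 * U b L q / q ≤ 1 / (L : ℝ) ^ A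

/-- T7 (port of `Pool.Agent.H760R2.PalT7.U_sum_of`) -/
def TaskT7 : Prop := ∀ b : ℕ, 2 ≤ b → PointB b → MidB b → BigB b → USumB b

/-- level of distribution for the palindromes with leading digit 1 -/
def BVB (b : ℕ) : Prop := ∀ (ε : ℝ), 0 < ε → ∀ (A : ℕ), ∀ᶠ L : ℕ in atTop, ∀ h : ℕ → ℕ,
    ∑ q ∈ (Icc 1 ⌊(b : ℝ) ^ ((1 / 2 - ε) * L)⌋₊).filter (fun q => q.Coprime (2 * b)),
      (q.divisors.card : ℝ) ^ 2 * |cnt b L q (h q) - (b : ℝ) ^ L / q| ≤ (b : ℝ) ^ L / (L : ℝ) ^ A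

/-- T8 (port of `Pool.Agent.H276R2.PalT8.BV_of`) -/
def TaskT8 : Prop := ∀ b : ℕ, 2 ≤ b → USumB b → BVB b

/-- level of distribution for all palindromes with `2 L + 1` digits in base `b` -/
def AllB (b : ℕ) : Prop := ∀ (ε : ℝ), 0 < ε → ∀ (A : ℕ), ∀ᶠ L : ℕ in atTop, ∀ h : ℕ → ℕ,
    ∑ q ∈ (Icc 1 ⌊(b : ℝ) ^ ((1 / 2 - ε) * L)⌋₊).filter (fun q => q.Coprime (2 * b)),
      |(((range (b ^ (2 * L + 1))).filter (fun n => b ^ (2 * L) ≤ n ∧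
          (Nat.digits b n).reverse = Nat.digits b n ∧ n ≡ h q [MOD q])).card : ℝ)
          - ((b : ℝ) - 1) * (b : ℝ) ^ L / q| ≤ (b : ℝ) ^ L / (L : ℝ) ^ A

/-- T9 (port of `Pool.Agent.H459R2.PalQ6.BV2_all_of` and of the digit facts in `Pool.Agent.H187R2.PalT10`,
`Pool.Agent.H861R2.Pal.T11`) -/
def TaskT9 : Prop := ∀ b : ℕ, 2 ≤ b → BVB b → AllB b

end Pool.Agent.H39R3.PB
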