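import Pool.Agent.H39R3.PB.Mid

/-! Assembly. -/

set_option autoImplicit false

namespace Pool.Agent.H39R3.PB

theorem bvB (h1 : TaskT1) (h2 : TaskT2) (h4 : TaskT4) (hP : TaskPB) (h6 : TaskT6) (h7 : TaskT7)
    (h8 : TaskT8) {b : ℕ} (hb : 3 ≤ b) : BVB b :=
  h8 b (by omega) (h7 b (by omega) (h6 b (by omega)) (midB h1 h4 hP hb) (bigB h1 h2 (by omega)))

theorem allB (h1 : TaskT1) (h2 : TaskT2) (h4 : TaskT4) (hP : TaskPB) (h6 : TaskT6) (h7 : TaskT7)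
    (h8 : TaskT8) (h9 : TaskT9) {b : ℕ} (hb : 3 ≤ b) : AllB b :=
  h9 b (by omega) (bvB h1 h2 h4 hP h6 h7 h8 hb)

end Pool.Agent.H39R3.PB
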