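import Pool.Agent.H39R3.PB.Basic

/-! The middle and the large range in base `b`. -/

set_option autoImplicit false

namespace Pool.Agent.H39R3.PB

open Finset Filter Topology Pool.Agent.Helper112

variable {b : ℕ}

lemma prod_le_mean (n : ℕ) (hn : 0 < n) (x : ℕ → ℝ) (hx : ∀ i, 0 ≤ x i) :
    ∏ i ∈ range n, x i ≤ ∑ i ∈ range n, (1 / (n : ℝ)) * x i ^ n := by
  have hn' : (n : ℝ) ≠ 0 := by exact_mod_cast hn.ne'
  have key := Real.geom_mean_le_arith_mean_weighted (range n) (fun _ => 1 / (n : ℝ)) (fun i => x i ^ n)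
    (fun _ _ => by positivity) (by simp [hn']) (fun i _ => pow_nonneg (hx i) n)
  refine le_trans (le_of_eq ?_) key
  apply prod_congr rfl
  intro i _
  rw [one_div, Real.pow_rpow_inv_natCast (hx i) hn.ne']

theorem bigB (h1 : TaskT1) (h2 : TaskT2) (hb : 2 ≤ b) : BigB b := by
  set C1 : ℝ := 6 * (2 * b + 4) with hC1
  have hbr : (2 : ℝ) ≤ b := by exact_mod_cast hb
  have hC11 : 1 ≤ C1 := by rw [hC1]; linarith
  refine ⟨4 + 2 * C1, 3 / 4, by linarith, by norm_num, by norm_num, ?_⟩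
  intro L k J Q T hT hk hJ hkJ hQ1 hQ2
  have hT1 : 1 ≤ T := by
    have := hT 1 le_rfl (Nat.one_le_pow _ _ (by omega))
    simpa using this
  have hT1' := h1 b hb L (4 * k) J Q hk hJ (by omega) hQ1 hQ2
  have hA := h2 b hb L (4 * k) J Q T (by omega) hQ1 hT
  have hB := h2 b hb L (J + 4 * k) J Q T (by omega) hQ1 hT
  rw [← hC1] at hT1'
  have hQ : (0 : ℝ) ≤ Q := Nat.cast_nonneg _
  set lam : ℝ := (3 / 4) ^ k with hlam
  have hlam0 : 0 < lam := by positivity
  have hA' : pts b Q (fun α => Ps b L (4 * k) J α ^ 2) ≤ 4 * Q * T := by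
    refine (pts_le_apts fun _ => sq_nonneg _).trans (hA.trans ?_)
    nlinarith
  have hB' : pts b Q (fun α => Ps b L (J + 4 * k) J α ^ 2) ≤ 4 * Q * T := by
    refine (pts_le_apts fun _ => sq_nonneg _).trans (hB.trans ?_)
    nlinarith
  have hpt : ∀ α, Ps b L 0 L α ≤ lam * (Ps b L (4 * k) J α * Ps b L (J + 4 * k) J α) +
      lam⁻¹ * ((Ps b L 0 (4 * k) α ^ 2 * Ps b L (4 * k) (J - 4 * k) α) * Ps b L (J + 4 * k) J α) := by
    intro α
    set x := Ps b L 0 (4 * k) α with hx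
    have hx0 : 0 ≤ x := Ps_nonneg _ _ _ _ _
    have hx1 : x ≤ 1 := Ps_le_one _ _ _ _ _
    set y := Ps b L (4 * k) (J - 4 * k) α with hy
    have hy0 : 0 ≤ y := Ps_nonneg _ _ _ _ _
    set w := Ps b L J (4 * k) α with hw
    have hw0 : 0 ≤ w := Ps_nonneg _ _ _ _ _
    have hw1 : w ≤ 1 := Ps_le_one _ _ _ _ _
    set u := Ps b L (J + 4 * k) J α with hu
    have hu0 : 0 ≤ u := Ps_nonneg _ _ _ _ _
    have e1 : Ps b L (4 * k) J α = y * w := by
      have h1 : J = (J - 4 * k) + 4 * k := by omega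
      conv_lhs => rw [h1]
      rw [Ps_add, show 4 * k + (J - 4 * k) = J by omega]
    have e2 : Ps b L 0 L α ≤ x * (y * w) * u := by
      have h1 : L = (4 * k + J) + (J + (L - (4 * k + 2 * J))) := by omega
      calc Ps b L 0 L α = Ps b L 0 ((4 * k + J) + (J + (L - (4 * k + 2 * J)))) α := by rw [← h1]
        _ = x * (y * w) * (u * Ps b L (J + 4 * k + J) (L - (4 * k + 2 * J)) α) := by
            rw [Ps_add, Ps_add, Ps_add, Nat.zero_add, Nat.zero_add, e1,
              show 4 * k + J = J + 4 * k by omega]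
        _ ≤ x * (y * w) * (u * 1) := by
            gcongr
            exact Ps_le_one _ _ _ _ _
        _ = _ := by ring
    rw [e1]
    refine e2.trans ?_
    have hxl : x ≤ lam + lam⁻¹ * x ^ 2 := by
      rcases le_total x lam with h | h
      · have : 0 ≤ lam⁻¹ * x ^ 2 := by positivity
        linarith
      · have : x ≤ lam⁻¹ * x ^ 2 := by
          rw [inv_mul_eq_div, le_div_iff₀ hlam0]
          nlinarith
        linarith
    calc x * (y * w) * u ≤ (lam + lam⁻¹ * x ^ 2) * (y * w) * u := by gcongr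
      _ = lam * (y * w * u) + lam⁻¹ * (x ^ 2 * y * u) * w := by ring
      _ ≤ lam * (y * w * u) + lam⁻¹ * (x ^ 2 * y * u) * 1 := by gcongr
      _ = _ := by ring
  have e1 : pts b Q (Ps b L 0 L) ≤ lam * pts b Q (fun α => Ps b L (4 * k) J α * Ps b L (J + 4 * k) J α) +
      lam⁻¹ * pts b Q (fun α => (Ps b L 0 (4 * k) α ^ 2 * Ps b L (4 * k) (J - 4 * k) α) *
        Ps b L (J + 4 * k) J α) := by
    refine (pts_mono hpt).trans (le_of_eq ?_)
    rw [pts_add, pts_mul_left, pts_mul_left]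
  have e2 : pts b Q (fun α => Ps b L (4 * k) J α * Ps b L (J + 4 * k) J α) ≤ 4 * Q * T := by
    have h := pts_cs (b := b) (Q := Q) (Ps b L (4 * k) J) (Ps b L (J + 4 * k) J)
    have h0 : 0 ≤ pts b Q (fun x => Ps b L (4 * k) J x ^ 2) := pts_nonneg fun _ => sq_nonneg _
    have h0' : 0 ≤ pts b Q (fun x => Ps b L (J + 4 * k) J x ^ 2) := pts_nonneg fun _ => sq_nonneg _
    have h3 : (pts b Q (fun x => Ps b L (4 * k) J x * Ps b L (J + 4 * k) J x)) ^ 2 ≤ (4 * Q * T) ^ 2 := by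
      refine h.trans ?_
      rw [sq (4 * (Q : ℝ) * T)]
      exact mul_le_mul hA' hB' h0' (by positivity)
    exact le_of_abs_le (abs_le_of_sq_le_sq h3 (by positivity))
  have e3 : pts b Q (fun α => (Ps b L 0 (4 * k) α ^ 2 * Ps b L (4 * k) (J - 4 * k) α) *
      Ps b L (J + 4 * k) J α) ≤ 2 * C1 * Q * T * lam ^ 2 := by
    have h := pts_cs (b := b) (Q := Q) (fun α => Ps b L 0 (4 * k) α ^ 2 * Ps b L (4 * k) (J - 4 * k) α)
      (Ps b L (J + 4 * k) J)
    have e : (fun α => (Ps b L 0 (4 * k) α ^ 2 * Ps b L (4 * k) (J - 4 * k) α) ^ 2) =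
        (fun α => Ps b L 0 (4 * k) α ^ 4 * Ps b L (4 * k) (J - 4 * k) α ^ 2) := by
      funext α; ring
    simp only [e] at h
    have h0' : 0 ≤ pts b Q (fun x => Ps b L (J + 4 * k) J x ^ 2) := pts_nonneg fun _ => sq_nonneg _
    have e2 : ((3 : ℝ) / 4) ^ (4 * k) = lam ^ 4 := by
      rw [hlam, ← pow_mul]; ring_nf
    rw [e2] at hT1'
    refine le_of_abs_le (abs_le_of_sq_le_sq (h.trans ?_) (by positivity))
    calc pts b Q (fun α => Ps b L 0 (4 * k) α ^ 4 * Ps b L (4 * k) (J - 4 * k) α ^ 2) *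
          pts b Q (fun x => Ps b L (J + 4 * k) J x ^ 2)
        ≤ (C1 * Q * lam ^ 4) * (4 * Q * T) := mul_le_mul hT1' hB' h0' (by positivity)
      _ = (4 * Q ^ 2 * lam ^ 4) * (C1 * T) := by ring
      _ ≤ (4 * Q ^ 2 * lam ^ 4) * (C1 ^ 2 * T ^ 2) := by
          apply mul_le_mul_of_nonneg_left _ (by positivity)
          have a1 : C1 ≤ C1 ^ 2 := by nlinarith
          have a2 : T ≤ T ^ 2 := by nlinarith
          exact mul_le_mul a1 a2 (by linarith) (by positivity)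
      _ = _ := by ring
  calc pts b Q (Ps b L 0 L) ≤ lam * (4 * Q * T) + lam⁻¹ * (2 * C1 * Q * T * lam ^ 2) := by
        refine e1.trans ?_
        gcongr
    _ = (4 + 2 * C1) * Q * T * lam := by
        field_simp

theorem midB (h1 : TaskT1) (h4 : TaskT4) (hP : TaskPB) (hb : 3 ≤ b) : MidB b := by
  set C1 : ℝ := 6 * (2 * b + 4) with hC1
  set C2 : ℝ := 6 * b * (b + 4) with hC2
  have hbr : (3 : ℝ) ≤ b := by exact_mod_cast hb
  have hb0 : (0 : ℝ) < b := by linarith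
  set r : ℝ := 26 / 25 with hr
  set θ : ℝ := 199 / 200 with hθ
  refine ⟨C1 * (r / θ) ^ 3 / θ + C2 * b, θ, 2 * b + 1, by positivity, by rw [hθ]; norm_num,
    by rw [hθ]; norm_num, by omega, ?_⟩
  intro L J Q hL hQ hJ1 hJ2
  have hQ0 : (0 : ℝ) < Q := by exact_mod_cast hQ
  -- the block in the middle
  obtain ⟨J1, hJ1a, hJ1b, hJ1c, hJ1d, hJ1e⟩ : ∃ J1 : ℕ, 1 ≤ J1 ∧ Q ≤ b ^ J1 ∧ b ^ J1 ≤ b * Q ∧ J1 ≤ J + 1 ∧
      J ≤ 2 * J1 + 1 := by
    rcases Nat.lt_or_ge Q 2 with hq | hq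
    · obtain rfl : Q = 1 := by omega
      refine ⟨1, le_rfl, by simp; omega, by simp, by omega, ?_⟩
      simp only [one_pow, mul_one] at hJ2
      have : J ≤ 1 := by
        by_contra hcon
        have h2 : b ^ 2 ≤ b ^ J := Nat.pow_le_pow_right (by omega) (by omega)
        nlinarith
      omega
    · have f1 := Nat.le_pow_clog (b := b) (by omega) Q
      have f2 := Nat.pow_pred_clog_lt_self (b := b) (by omega) (x := Q) (by omega)
      have f3 : 0 < Nat.clog b Q := Nat.clog_pos (by omega) hq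
      set J1 := Nat.clog b Q with hJ1def
      have f4 : J1 = J1.pred + 1 := (Nat.succ_pred_eq_of_pos f3).symm
      refine ⟨J1, f3, f1, ?_, ?_, ?_⟩
      · rw [f4, pow_succ]
        nlinarith
      · have h5 : b ^ J1.pred < b ^ J := by
          calc b ^ J1.pred < Q := f2
            _ ≤ Q ^ 2 := by nlinarith
            _ ≤ b ^ J := hJ1
        have := (Nat.pow_lt_pow_iff_right (show 1 < b by omega)).1 h5
        omega
      · have h5 : b ^ J ≤ b ^ (2 * J1 + 1) := by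
          calc b ^ J ≤ b * Q ^ 2 := hJ2
            _ ≤ b * (b ^ J1) ^ 2 := by gcongr
            _ = b ^ (2 * J1 + 1) := by ring
        exact (Nat.pow_le_pow_iff_right (show 1 < b by omega)).1 h5
  have hJ1L : J1 + 2 * b * J ≤ L := by nlinarith
  have k1 := h1 b (by omega) L J1 J1 Q le_rfl hJ1a (by nlinarith) hJ1b hJ1c
  rw [← hC1] at k1
  simp only [Nat.sub_self, Ps_zero, one_pow, mul_one] at k1
  -- the other blocks
  have k2 : pts b Q (fun α => Ps b L J1 (2 * b * J) α) ≤ C2 * ((b : ℝ) ^ 2 * PP b) ^ J := by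
    have hpt : ∀ α, Ps b L J1 (2 * b * J) α ≤
        ∑ i ∈ range (2 * b), (1 / ((2 * b : ℕ) : ℝ)) * Ps b L (J1 + i * J) J α ^ (2 * b) := by
      intro α
      rw [Ps_blocks]
      exact prod_le_mean (2 * b) (by omega) (fun i => Ps b L (J1 + i * J) J α) (fun i => Ps_nonneg _ _ _ _ _)
    refine (pts_mono hpt).trans ?_
    rw [pts_sum]
    calc ∑ i ∈ range (2 * b), pts b Q (fun α => (1 / ((2 * b : ℕ) : ℝ)) * Ps b L (J1 + i * J) J α ^ (2 * b))
        ≤ ∑ i ∈ range (2 * b), (1 / ((2 * b : ℕ) : ℝ)) * (C2 * ((b : ℝ) ^ 2 * PP b) ^ J) := by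
          apply sum_le_sum
          intro i hi
          rw [mem_range] at hi
          rw [pts_mul_left]
          apply mul_le_mul_of_nonneg_left _ (by positivity)
          have h6 : i * J + J ≤ 2 * b * J := by nlinarith
          exact h4 b (by omega) L (J1 + i * J) J Q (by omega) (by omega) hQ hJ1 hJ2
      _ = _ := by
          rw [sum_const, card_range]
          simp only [nsmul_eq_mul]
          have : ((2 * b : ℕ) : ℝ) ≠ 0 := by positivity
          field_simp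
  -- the size of `(b^2 PP)^J`
  have hPP0 : 0 ≤ PP b := by unfold PP; positivity
  have k3 : ((b : ℝ) ^ 2 * PP b) ^ J ≤ r ^ J * (b * Q) := by
    have h5 := hP b hb
    have h6 : ((b : ℝ) ^ 2 * PP b) ^ 2 ≤ r ^ 2 * b := by
      calc ((b : ℝ) ^ 2 * PP b) ^ 2 = (PP b ^ 2 * (b : ℝ) ^ 3) * b := by ring
        _ ≤ r ^ 2 * b := by gcongr
    refine le_of_abs_le (abs_le_of_sq_le_sq ?_ (by positivity))
    calc (((b : ℝ) ^ 2 * PP b) ^ J) ^ 2 = (((b : ℝ) ^ 2 * PP b) ^ 2) ^ J := by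
          rw [← pow_mul, ← pow_mul, Nat.mul_comm J 2]
      _ ≤ (r ^ 2 * b) ^ J := by gcongr
      _ = (r ^ J) ^ 2 * (b : ℝ) ^ J := by rw [mul_pow, ← pow_mul, ← pow_mul, mul_comm 2 J]
      _ ≤ (r ^ J) ^ 2 * (b * (Q : ℝ) ^ 2) := by
          apply mul_le_mul_of_nonneg_left _ (by positivity)
          exact_mod_cast hJ2
      _ ≤ (r ^ J) ^ 2 * (b ^ 2 * (Q : ℝ) ^ 2) := by
          gcongr
          nlinarith
      _ = (r ^ J * (b * Q)) ^ 2 := by ring
  set σ : ℝ := (r / θ) ^ J with hσ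
  have hσ0 : 0 < σ := by positivity
  have hpt : ∀ α, Ps b L 0 L α ≤ σ ^ 3 * Ps b L 0 J1 α ^ 4 + σ⁻¹ * Ps b L J1 (2 * b * J) α := by
    intro α
    set x := Ps b L 0 J1 α with hx
    have hx0 : 0 ≤ x := Ps_nonneg _ _ _ _ _
    set y := Ps b L J1 (2 * b * J) α with hy
    have hy0 : 0 ≤ y := Ps_nonneg _ _ _ _ _
    have hy1 : y ≤ 1 := Ps_le_one _ _ _ _ _
    have e2 : Ps b L 0 L α ≤ x * y := by
      obtain ⟨K, hK⟩ := Nat.exists_eq_add_of_le hJ1L
      calc Ps b L 0 L α = Ps b L 0 ((J1 + 2 * b * J) + K) α := by rw [← hK]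
        _ = x * y * Ps b L (0 + (J1 + 2 * b * J)) K α := by
            rw [Ps_add, Ps_add, Nat.zero_add]
        _ ≤ x * y * 1 := by
            gcongr
            exact Ps_le_one _ _ _ _ _
        _ = _ := by ring
    refine e2.trans ?_
    rcases le_total (σ * x) 1 with h | h
    · have h7 : x * y ≤ σ⁻¹ * y := by
        apply mul_le_mul_of_nonneg_right _ hy0
        rw [inv_eq_one_div, le_div_iff₀ hσ0]
        linarith
      have : 0 ≤ σ ^ 3 * x ^ 4 := by positivity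
      linarith
    · have h7 : x * y ≤ σ ^ 3 * x ^ 4 := by
        calc x * y ≤ x * 1 := by gcongr
          _ ≤ x * (σ * x) ^ 3 := by
              apply mul_le_mul_of_nonneg_left _ hx0
              exact one_le_pow₀ h
          _ = σ ^ 3 * x ^ 4 := by ring
      have : 0 ≤ σ⁻¹ * y := by positivity
      linarith
  have e1 : pts b Q (Ps b L 0 L) ≤ σ ^ 3 * (C1 * Q * (3 / 4) ^ J1) + σ⁻¹ * (C2 * (r ^ J * (b * Q))) := by
    refine (pts_mono hpt).trans ?_
    rw [pts_add, pts_mul_left, pts_mul_left]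
    have hC20 : 0 ≤ C2 := by positivity
    gcongr
    exact k2.trans (mul_le_mul_of_nonneg_left k3 hC20)
  refine e1.trans ?_
  have hθ0 : 0 < θ := by rw [hθ]; norm_num
  have hr0 : 0 < r := by rw [hr]; norm_num
  have g1 : σ⁻¹ * (C2 * (r ^ J * (b * Q))) = C2 * b * Q * θ ^ J := by
    rw [hσ, div_pow]
    have : r ^ J ≠ 0 := by positivity
    have : θ ^ J ≠ 0 := by positivity
    field_simp
  have g2 : σ ^ 3 * (3 / 4 : ℝ) ^ J1 ≤ (r / θ) ^ 3 / θ * θ ^ J := by
    have hrt : 1 ≤ r / θ := by rw [hr, hθ]; norm_num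
    calc σ ^ 3 * (3 / 4 : ℝ) ^ J1 = (r / θ) ^ (3 * J) * (3 / 4 : ℝ) ^ J1 := by
          rw [hσ, ← pow_mul, mul_comm J 3]
      _ ≤ (r / θ) ^ (3 * (2 * J1 + 1)) * (3 / 4 : ℝ) ^ J1 := by
          apply mul_le_mul_of_nonneg_right _ (by positivity)
          exact pow_le_pow_right₀ hrt (by omega)
      _ = (r / θ) ^ 3 * ((r / θ) ^ 6 * (3 / 4)) ^ J1 := by
          rw [mul_pow, ← pow_mul]
          ring
      _ ≤ (r / θ) ^ 3 * (θ ^ 2) ^ J1 := by
          apply mul_le_mul_of_nonneg_left _ (by positivity)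
          apply pow_le_pow_left₀ (by positivity)
          rw [hr, hθ]
          norm_num
      _ ≤ (r / θ) ^ 3 * (θ ^ J / θ) := by
          apply mul_le_mul_of_nonneg_left _ (by positivity)
          rw [← pow_mul, le_div_iff₀ hθ0, ← pow_succ]
          exact pow_le_pow_of_le_one hθ0.le (by rw [hθ]; norm_num) hJ1e
      _ = _ := by ring
  calc σ ^ 3 * (C1 * Q * (3 / 4) ^ J1) + σ⁻¹ * (C2 * (r ^ J * (b * Q)))
      = C1 * Q * (σ ^ 3 * (3 / 4 : ℝ) ^ J1) + C2 * b * Q * θ ^ J := by rw [g1]; ring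
    _ ≤ C1 * Q * ((r / θ) ^ 3 / θ * θ ^ J) + C2 * b * Q * θ ^ J := by
        have : 0 ≤ C1 * Q := by positivity
        gcongr
    _ = _ := by ring

end Pool.Agent.H39R3.PB
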